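import Mathlib

/-!
# The `k`-dimensional Weisfeiler-Leman method: refining `G` to its orbits does not pass to `G_v`

For every `k ≥ 1` we give a finite vertex-coloured graph `G` and a vertex `v` such that the
`k`-dimensional WL method refines `G` to its orbits but does not refine `G_v` to its orbits.
-/

set_option autoImplicit false

namespace Pool.Agent.Results.MP_493565_co.StabiliserFails

open Finset

/-! ### Coloured graphs -/

/-- A graph with colours on vertices and on edges. -/
structure CGraph (V : Type) where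
  graph : SimpleGraph V
  vcol : V → ℕ
  ecol : V → V → ℕ
  ecol_symm : ∀ u v, ecol u v = ecol v u

/-- `φ` is a colour-preserving automorphism of `G`. -/
def IsAut {V : Type} (G : CGraph V) (φ : V ≃ V) : Prop :=
  (∀ u v, G.graph.Adj (φ u) (φ v) ↔ G.graph.Adj u v) ∧
  (∀ u v, G.graph.Adj u v → G.ecol (φ u) (φ v) = G.ecol u v) ∧
  ∀ u, G.vcol (φ u) = G.vcol u

/-- `u` and `v` lie in the same orbit of `G`. -/
def SameOrbit {V : Type} (G : CGraph V) (u v : V) : Prop := ∃ φ : V ≃ V, IsAut G φ ∧ φ u = v

open Classical in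
/-- The vertex-stabilised graph `G_v`: the vertex `v` gets a new colour, larger than all the
colours of `G`, and nothing else changes. -/
noncomputable def stab {V : Type} [Fintype V] (G : CGraph V) (v : V) : CGraph V :=
  { G with vcol := fun x => if x = v then Finset.univ.sup G.vcol + 1 else G.vcol x }

/-! ### The Weisfeiler-Leman method -/

/-- The colours of the `k`-tuples after `t` rounds: at round `0` the isomorphism type (equality
pattern, edge-colour pattern, vertex colours), at round `t + 1` a pair of a colour of round `t`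
and a multiset of `k`-tuples of colours of round `t`. -/
def Col (k : ℕ) : ℕ → Type
  | 0 => (Fin k → Fin k → Prop) × (Fin k → Fin k → Option ℕ) × (Fin k → ℕ)
  | t + 1 => Col k t × Multiset (Fin k → Col k t)

open Classical in
/-- The isomorphism type of a tuple: which entries coincide, which ordered pairs are edges and
with which colour, and the vertex colours. -/
noncomputable def isoType {V : Type} (G : CGraph V) (k : ℕ) (S : Fin k → V) : Col k 0 :=
  (fun i j => S i = S j,
   fun i j => if G.graph.Adj (S i) (S j) then some (G.ecol (S i) (S j)) else none,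
   fun i => G.vcol (S i))

/-- `WL^t_k(S)`. -/
noncomputable def wl {V : Type} [Fintype V] [DecidableEq V] (G : CGraph V) (k : ℕ) :
    (t : ℕ) → (Fin k → V) → Col k t
  | 0, S => isoType G k S
  | t + 1, S => (wl G k t S,
      (Finset.univ : Finset V).val.map fun x => fun i => wl G k t (Function.update S i x))

/-- Round `t` is stable: one more round does not split any colour class of `V^k`. -/
def IsStable {V : Type} [Fintype V] [DecidableEq V] (G : CGraph V) (k t : ℕ) : Prop :=
  ∀ S S' : Fin k → V, wl G k t S = wl G k t S' → wl G k (t + 1) S = wl G k (t + 1) S'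

/-- The first stable round (it exists, see `exists_stable`). -/
noncomputable def stableRound {V : Type} [Fintype V] [DecidableEq V] (G : CGraph V) (k : ℕ) : ℕ :=
  sInf {t | IsStable G k t}

/-- `n`-fold nested multisets. -/
def Nest (C : Type) : ℕ → Type
  | 0 => C
  | n + 1 => Multiset (Nest C n)

/-- Colouring downward `n` times: a colouring `f` of `n`-tuples gives one nested multiset, the
outermost multiset running over the first entry. -/
def down {V C : Type} [Fintype V] : (n : ℕ) → ((Fin n → V) → C) → Nest C n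
  | 0, f => f Fin.elim0
  | n + 1, f => (Finset.univ : Finset V).val.map fun y =>
      down n fun t => f (Fin.cons y t : Fin (n + 1) → V)

/-- The stable colour `WL_k(v)` of a vertex, for `k = n + 1`:
`WL_k(v) = {{WL_k(v, y) : y}}`, and so on down from the stable colouring of the `k`-tuples. -/
noncomputable def vertexColour {V : Type} [Fintype V] [DecidableEq V] (G : CGraph V) (n : ℕ)
    (v : V) : Nest (Col (n + 1) (stableRound G (n + 1))) n :=
  down n fun t : Fin n → V =>
    wl G (n + 1) (stableRound G (n + 1)) (Fin.cons v t : Fin (n + 1) → V)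

/-- The `(n + 1)`-dimensional WL method refines `G` to its orbits. -/
def RefinesToOrbits {V : Type} [Fintype V] [DecidableEq V] (n : ℕ) (G : CGraph V) : Prop :=
  ∀ u v : V, vertexColour G n u = vertexColour G n v ↔ SameOrbit G u v

/-! ### Existence of a stable round -/

theorem exists_stable {V : Type} [Fintype V] [DecidableEq V] (G : CGraph V) (k : ℕ) :
    ∃ t, IsStable G k t := by
  classical
  by_contra hcon
  push Not at hcon
  let N : ℕ → ℕ := fun t => (Finset.univ.image (wl G k t)).card
  have hN : ∀ t, t ≤ N t := by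
    intro t
    induction t with
    | zero => exact Nat.zero_le _
    | succ t ih =>
      have hlt : N t < N (t + 1) := by
        let π : Col k (t + 1) → Col k t := fun c => c.1
        have hπ : ∀ S, π (wl G k (t + 1) S) = wl G k t S := fun _ => rfl
        have himg : (Finset.univ.image (wl G k (t + 1))).image π =
            Finset.univ.image (wl G k t) := by
          rw [Finset.image_image]
          rfl
        have hle : N t ≤ N (t + 1) := by
          show (Finset.univ.image (wl G k t)).card ≤ (Finset.univ.image (wl G k (t + 1))).card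
          rw [← himg]
          exact Finset.card_image_le
        refine lt_of_le_of_ne hle fun heq => hcon t ?_
        have hinj : Set.InjOn π
            ((Finset.univ.image (wl G k (t + 1)) : Finset (Col k (t + 1))) :
              Set (Col k (t + 1))) := by
          rw [← Finset.card_image_iff, himg]
          exact heq
        intro S S' h
        exact hinj (Finset.mem_coe.2 (Finset.mem_image_of_mem _ (Finset.mem_univ S)))
          (Finset.mem_coe.2 (Finset.mem_image_of_mem _ (Finset.mem_univ S'))) h
      omega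
  have h1 := hN (Fintype.card (Fin k → V) + 1)
  have h2 : N (Fintype.card (Fin k → V) + 1) ≤ Fintype.card (Fin k → V) :=
    Finset.card_image_le
  omega

/-! ### Invariance of the WL colours under automorphisms -/

theorem map_univ_eq {V C : Type} [Fintype V] (β : V ≃ V) (f g : V → C)
    (h : ∀ x, f x = g (β x)) :
    (Finset.univ : Finset V).val.map f = (Finset.univ : Finset V).val.map g := by
  have h1 : f = g ∘ β := funext h
  rw [h1, ← Multiset.map_map]
  congr 1
  have := congrArg Finset.val (Finset.map_univ_equiv β)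
  simp

theorem wl_aut {V : Type} [Fintype V] [DecidableEq V] (G : CGraph V) (k : ℕ) (φ : V ≃ V)
    (hφ : IsAut G φ) (t : ℕ) : ∀ S : Fin k → V, wl G k t S = wl G k t (φ ∘ S) := by
  induction t with
  | zero =>
    intro S
    show isoType G k S = isoType G k (φ ∘ S)
    unfold isoType
    refine Prod.ext ?_ (Prod.ext ?_ ?_)
    · funext i j
      simp
    · funext i j
      simp only [Function.comp]
      by_cases h : G.graph.Adj (S i) (S j)
      · rw [if_pos h, if_pos ((hφ.1 _ _).2 h), hφ.2.1 _ _ h]
      · rw [if_neg h, if_neg (fun h' => h ((hφ.1 _ _).1 h'))]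
    · funext i
      exact (hφ.2.2 _).symm
  | succ t ih =>
    intro S
    show (_, _) = (_, _)
    refine Prod.ext (ih S) ?_
    refine map_univ_eq φ _ _ fun x => ?_
    funext i
    show wl G k t (Function.update S i x) = wl G k t (Function.update (φ ∘ S) i (φ x))
    rw [ih]
    congr 1
    funext j
    by_cases h : j = i
    · subst h; simp
    · simp [Function.update_of_ne h]

theorem down_equiv {V C : Type} [Fintype V] (φ : V ≃ V) : ∀ (n : ℕ) (f f' : (Fin n → V) → C),
    (∀ t, f t = f' (φ ∘ t)) → down n f = down n f' := by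
  intro n
  induction n with
  | zero =>
    intro f f' h
    show f _ = f' _
    rw [h]
    congr 1
    funext i
    exact i.elim0
  | succ n ih =>
    intro f f' h
    refine map_univ_eq φ _ _ fun y => ?_
    refine ih _ _ fun t => ?_
    rw [h]
    congr 1
    funext i
    refine Fin.cases ?_ (fun j => ?_) i <;> simp

theorem vertexColour_aut {V : Type} [Fintype V] [DecidableEq V] (G : CGraph V) (n : ℕ)
    (φ : V ≃ V) (hφ : IsAut G φ) (v : V) : vertexColour G n v = vertexColour G n (φ v) := by
  unfold vertexColour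
  refine down_equiv φ n _ _ fun t => ?_
  rw [wl_aut G (n + 1) φ hφ]
  congr 1
  funext i
  refine Fin.cases ?_ (fun j => ?_) i <;> simp

/-! ### Equal colours give equal initial colours -/

theorem vcol_of_wl {V : Type} [Fintype V] [DecidableEq V] (G : CGraph V) (k t : ℕ) :
    ∀ S S' : Fin k → V, wl G k t S = wl G k t S' → ∀ i, G.vcol (S i) = G.vcol (S' i) := by
  induction t with
  | zero =>
    intro S S' h i
    have h2 : (isoType G k S).2.2 = (isoType G k S').2.2 := congrArg (fun c => c.2.2) h
    exact congrFun h2 i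
  | succ t ih =>
    intro S S' h
    exact ih S S' (congrArg Prod.fst h)

theorem exists_of_down {V C : Type} [Fintype V] [Nonempty V] : ∀ (n : ℕ)
    (f f' : (Fin n → V) → C), down n f = down n f' → ∃ t t', f t = f' t' := by
  intro n
  induction n with
  | zero =>
    intro f f' h
    exact ⟨_, _, h⟩
  | succ n ih =>
    intro f f' h
    obtain ⟨y⟩ := ‹Nonempty V›
    have h1 : (down n fun t => f (Fin.cons y t : Fin (n + 1) → V)) ∈
        (Finset.univ : Finset V).val.map fun y =>
          down n fun t => f (Fin.cons y t : Fin (n + 1) → V) :=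
      Multiset.mem_map_of_mem _ (Finset.mem_univ y)
    have h2 : (down n fun t => f (Fin.cons y t : Fin (n + 1) → V)) ∈
        (Finset.univ : Finset V).val.map fun y =>
          down n fun t => f' (Fin.cons y t : Fin (n + 1) → V) := by
      have h3 : ((Finset.univ : Finset V).val.map fun y =>
          down n fun t => f (Fin.cons y t : Fin (n + 1) → V)) =
          (Finset.univ : Finset V).val.map fun y =>
          down n fun t => f' (Fin.cons y t : Fin (n + 1) → V) := h
      rw [← h3]
      exact h1
    obtain ⟨y', -, hy'⟩ := Multiset.mem_map.1 h2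
    obtain ⟨t, t', ht⟩ := ih _ _ hy'
    exact ⟨_, _, ht.symm⟩

theorem vcol_of_vertexColour {V : Type} [Fintype V] [DecidableEq V] [Nonempty V] (G : CGraph V)
    (n : ℕ) (u v : V) (h : vertexColour G n u = vertexColour G n v) : G.vcol u = G.vcol v := by
  obtain ⟨t, t', ht⟩ := exists_of_down n _ _ h
  have := vcol_of_wl G (n + 1) _ _ _ ht 0
  simpa using this

/-! ### The construction -/

/-- The base set: `m` points, among them the two special points `0` and `1`. -/
abbrev Row (m : ℕ) : Type := Fin m → ZMod 2

/-- The vertices: pairs `(x, a)` with `a` a `0`-`1` vector indexed by the base points, with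
`a x = 0`, and of even weight unless `x` is one of the two special points. -/
def Vert (m : ℕ) : Type :=
  {p : Fin m × Row m // p.2 p.1 = 0 ∧ (p.1.val ≠ 0 → p.1.val ≠ 1 → ∑ y, p.2 y = 0)}

instance (m : ℕ) : DecidableEq (Vert m) :=
  inferInstanceAs (DecidableEq {p : Fin m × Row m //
    p.2 p.1 = 0 ∧ (p.1.val ≠ 0 → p.1.val ≠ 1 → ∑ y, p.2 y = 0)})

instance (m : ℕ) : Fintype (Vert m) :=
  inferInstanceAs (Fintype {p : Fin m × Row m //
    p.2 p.1 = 0 ∧ (p.1.val ≠ 0 → p.1.val ≠ 1 → ∑ y, p.2 y = 0)})

/-- The graph: `(x, a)` and `(y, b)` are adjacent iff `x ≠ y` and `a y = b x`; the colour of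
`(x, a)` is `x`. -/
def cfi (m : ℕ) : CGraph (Vert m) where
  graph :=
    { Adj := fun u v => u.1.1 ≠ v.1.1 ∧ u.1.2 v.1.1 = v.1.2 u.1.1
      symm := ⟨fun _ _ h => ⟨h.1.symm, h.2.symm⟩⟩
      loopless := ⟨fun _ h => h.1 rfl⟩ }
  vcol := fun u => u.1.1.val
  ecol := fun _ _ => 0
  ecol_symm := fun _ _ => rfl

/-- A flip: a symmetric `0`-`1` matrix with zero diagonal. -/
structure IsFlip {m : ℕ} (y : Fin m → Row m) : Prop where
  symm : ∀ x x', y x x' = y x' x
  diag : ∀ x, y x x = 0

theorem add_self (a : ZMod 2) : a + a = 0 := CharTwo.add_self_eq_zero a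

theorem add_add_self {m : ℕ} (a b : Row m) : a + b + b = a := by
  funext i
  simp [add_assoc, add_self]

/-- A family of rows, one for each base point, acts on the vertices by translation. -/
def shift {m : ℕ} (y : Fin m → Row m) (hd : ∀ x, y x x = 0)
    (hs : ∀ x : Fin m, x.val ≠ 0 → x.val ≠ 1 → ∑ z, y x z = 0) : Vert m ≃ Vert m where
  toFun u := ⟨(u.1.1, u.1.2 + y u.1.1), by
    refine ⟨by simp [u.2.1, hd], fun h0 h1 => ?_⟩
    have h2 := u.2.2 h0 h1
    have h3 := hs u.1.1 h0 h1
    simp only [Pi.add_apply, Finset.sum_add_distrib]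
    rw [h2, h3, add_zero]⟩
  invFun u := ⟨(u.1.1, u.1.2 + y u.1.1), by
    refine ⟨by simp [u.2.1, hd], fun h0 h1 => ?_⟩
    have h2 := u.2.2 h0 h1
    have h3 := hs u.1.1 h0 h1
    simp only [Pi.add_apply, Finset.sum_add_distrib]
    rw [h2, h3, add_zero]⟩
  left_inv u := by
    apply Subtype.ext
    refine Prod.ext rfl ?_
    exact add_add_self _ _
  right_inv u := by
    apply Subtype.ext
    refine Prod.ext rfl ?_
    exact add_add_self _ _

theorem adj_iff {m : ℕ} (y : Fin m → Row m) (hy : IsFlip y) {u v u' v' : Vert m}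
    (hu1 : u'.1.1 = u.1.1) (hu2 : u'.1.2 = u.1.2 + y u.1.1)
    (hv1 : v'.1.1 = v.1.1) (hv2 : v'.1.2 = v.1.2 + y v.1.1) :
    (cfi m).graph.Adj u' v' ↔ (cfi m).graph.Adj u v := by
  show (u'.1.1 ≠ v'.1.1 ∧ u'.1.2 v'.1.1 = v'.1.2 u'.1.1) ↔
    (u.1.1 ≠ v.1.1 ∧ u.1.2 v.1.1 = v.1.2 u.1.1)
  rw [hu1, hv1, hu2, hv2, Pi.add_apply, Pi.add_apply, hy.symm u.1.1 v.1.1, add_left_inj]

/-- A flip with even rows (outside the two special points) is an automorphism. -/
theorem shift_aut {m : ℕ} (y : Fin m → Row m) (hy : IsFlip y)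
    (hs : ∀ x : Fin m, x.val ≠ 0 → x.val ≠ 1 → ∑ z, y x z = 0) :
    IsAut (cfi m) (shift y hy.diag hs) :=
  ⟨fun _ _ => adj_iff y hy rfl rfl rfl rfl, fun _ _ _ => rfl, fun _ => rfl⟩

/-! ### The orbits of `cfi m` -/

/-- the flip supported on the edge `{p, q}` -/
def edge {m : ℕ} (p q : Fin m) : Fin m → Row m :=
  fun x z => (if x = p then 1 else 0) * (if z = q then 1 else 0) +
    (if x = q then 1 else 0) * (if z = p then 1 else 0)

theorem edge_flip {m : ℕ} {p q : Fin m} (h : p ≠ q) : IsFlip (edge p q) where
  symm x x' := by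
    unfold edge
    ring
  diag x := by
    unfold edge
    by_cases hp : x = p
    · subst hp
      simp [h]
    · simp [hp]

theorem edge_sum {m : ℕ} (p q : Fin m) (x : Fin m) :
    ∑ z, edge p q x z = (if x = p then 1 else 0) + if x = q then 1 else 0 := by
  unfold edge
  rw [Finset.sum_add_distrib, ← Finset.mul_sum, ← Finset.mul_sum]
  simp

theorem edge_row {m : ℕ} {p q x : Fin m} (hp : x ≠ p) (hq : x ≠ q) : edge p q x = 0 := by
  funext z
  unfold edge
  simp [hp, hq]

theorem IsFlip.add {m : ℕ} {y y' : Fin m → Row m} (h : IsFlip y) (h' : IsFlip y') :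
    IsFlip (y + y') where
  symm x x' := by
    simp only [Pi.add_apply]
    rw [h.symm, h'.symm]
  diag x := by
    simp only [Pi.add_apply]
    rw [h.diag, h'.diag, add_zero]

theorem IsFlip.zero {m : ℕ} : IsFlip (0 : Fin m → Row m) := ⟨fun _ _ => rfl, fun _ => rfl⟩

/-- the star flip with centre `c` and weights `w` -/
def star {m : ℕ} (c : Fin m) (w : Row m) : Fin m → Row m :=
  fun x z => (if x = c then w z else 0) + (if z = c then w x else 0)

theorem star_flip {m : ℕ} {c : Fin m} {w : Row m} (hw : w c = 0) : IsFlip (star c w) where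
  symm x x' := by
    unfold star
    ring
  diag x := by
    unfold star
    by_cases hx : x = c
    · subst hx
      simp [hw]
    · simp [hx]

theorem star_sum {m : ℕ} (c : Fin m) (w : Row m) (x : Fin m) :
    ∑ z, star c w x z = (if x = c then ∑ z, w z else 0) + w x := by
  unfold star
  rw [Finset.sum_add_distrib]
  congr 1
  · split_ifs
    · rfl
    · simp
  · simp

/-- two vertices of `cfi m` of the same colour lie in one orbit -/
theorem sameOrbit_of_vcol {m : ℕ} (hm : 2 ≤ m) (u v : Vert m)
    (h : (cfi m).vcol u = (cfi m).vcol v) : SameOrbit (cfi m) u v := by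
  have hx : u.1.1 = v.1.1 := Fin.ext h
  set x := u.1.1 with hxdef
  set w : Row m := u.1.2 + v.1.2 with hw
  have hwx : w x = 0 := by
    rw [hw, Pi.add_apply, u.2.1, hx, v.2.1, add_zero]
  have hws : x.val ≠ 0 → x.val ≠ 1 → ∑ z, w z = 0 := by
    intro h0 h1
    rw [hw]
    simp only [Pi.add_apply, Finset.sum_add_distrib]
    rw [u.2.2 h0 h1, v.2.2 (by rwa [← hx]) (by rwa [← hx]), add_zero]
  obtain ⟨p, hp, hpx⟩ : ∃ p : Fin m, (p.val = 0 ∨ p.val = 1) ∧ x ≠ p := by
    by_cases h0 : x.val = 0
    · exact ⟨⟨1, by omega⟩, Or.inr rfl, fun hh => by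
        have := congrArg Fin.val hh
        simp only at this
        omega⟩
    · exact ⟨⟨0, by omega⟩, Or.inl rfl, fun hh => h0 (congrArg Fin.val hh)⟩
  let w' : Row m := fun z => if z = p then 0 else w z
  have hw'p : w' p = 0 := by simp [w']
  have hy : IsFlip (star x w + star p w') := (star_flip hwx).add (star_flip hw'p)
  have hs : ∀ a : Fin m, a.val ≠ 0 → a.val ≠ 1 → ∑ z, (star x w + star p w') a z = 0 := by
    intro a h0 h1
    have hap : a ≠ p := by
      rintro rfl
      rcases hp with hp | hp <;> omega
    simp only [Pi.add_apply, Finset.sum_add_distrib]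
    rw [star_sum, star_sum, if_neg hap]
    have h3 : w' a = w a := by simp [w', hap]
    rw [h3, zero_add]
    by_cases hax : a = x
    · subst hax
      rw [if_pos rfl, hws h0 h1, zero_add, add_self]
    · rw [if_neg hax, zero_add, add_self]
  refine ⟨shift _ hy.diag hs, shift_aut _ hy hs, ?_⟩
  apply Subtype.ext
  refine Prod.ext hx ?_
  show u.1.2 + (star x w + star p w') x = v.1.2
  have hrow : (star x w + star p w') x = w := by
    funext z
    show ((if x = x then w z else 0) + (if z = x then w x else 0)) +
      ((if x = p then w' z else 0) + (if z = p then w' x else 0)) = w z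
    rw [if_pos rfl, if_neg hpx]
    have h1 : (if z = x then w x else 0) = 0 := by rw [hwx]; simp
    have h2 : (if z = p then w' x else 0) = 0 := by
      have : w' x = 0 := by simp [w', hpx, hwx]
      rw [this]; simp
    rw [h1, h2, add_zero, add_zero, add_zero]
  rw [hrow, hw]
  funext z
  simp only [Pi.add_apply]
  rw [← add_assoc, add_self, zero_add]

theorem refines_cfi {m : ℕ} (hm : 2 ≤ m) (n : ℕ) : RefinesToOrbits n (cfi m) := by
  intro u v
  constructor
  · intro h
    have : Nonempty (Vert m) := ⟨u⟩
    exact sameOrbit_of_vcol hm u v (vcol_of_vertexColour _ n u v h)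
  · rintro ⟨φ, hφ, rfl⟩
    exact vertexColour_aut _ n φ hφ u

/-! ### The stabilised graph -/

/-- the vertex `(x, 0)` -/
def zeroVert {m : ℕ} (x : Fin m) : Vert m := ⟨(x, 0), rfl, fun _ _ => by simp⟩

theorem handshake {m : ℕ} (y : Fin m → Row m) (hy : IsFlip y) : ∑ x, ∑ z, y x z = 0 := by
  rw [← Finset.sum_product' (f := fun x z => y x z)]
  refine Finset.sum_involution (fun p _ => (p.2, p.1)) ?_ ?_ ?_ ?_
  · intro p _
    rw [hy.symm p.2 p.1]
    exact add_self _
  · intro p _ hp hpp
    apply hp
    have : p.2 = p.1 := congrArg Prod.fst hpp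
    rw [this]
    exact hy.diag _
  · intro p _
    simp
  · intro p _
    rfl

theorem stab_vcol_self {V : Type} [Fintype V] (G : CGraph V) (v : V) :
    (stab G v).vcol v = Finset.univ.sup G.vcol + 1 := by
  simp [stab]

theorem stab_vcol_ne {V : Type} [Fintype V] (G : CGraph V) (v u : V) (h : u ≠ v) :
    (stab G v).vcol u = G.vcol u := by
  simp [stab, h]

theorem aut_fix {V : Type} [Fintype V] (G : CGraph V) (v : V) (φ : V ≃ V)
    (hφ : IsAut (stab G v) φ) : φ v = v := by
  by_contra hne
  have h1 := hφ.2.2 v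
  rw [stab_vcol_self, stab_vcol_ne G v _ hne] at h1
  have h2 : G.vcol (φ v) ≤ Finset.univ.sup G.vcol := Finset.le_sup (Finset.mem_univ _)
  omega

theorem aut_vcol {V : Type} [Fintype V] (G : CGraph V) (v : V) (φ : V ≃ V)
    (hφ : IsAut (stab G v) φ) (u : V) : G.vcol (φ u) = G.vcol u := by
  by_cases hu : u = v
  · subst hu
    rw [aut_fix G u φ hφ]
  · have h1 : φ u ≠ v := by
      intro h
      apply hu
      apply φ.injective
      rw [h, aut_fix G v φ hφ]
    have h2 := hφ.2.2 u
    rwa [stab_vcol_ne G v _ h1, stab_vcol_ne G v _ hu] at h2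

/-- after fixing `(0, 0)`, an automorphism preserves the parity of the vectors at the point `1` -/
theorem parity {m : ℕ} (x0 x1 : Fin m) (h0 : x0.val = 0) (h1 : x1.val = 1)
    (φ : Vert m ≃ Vert m) (hφ : IsAut (stab (cfi m) (zeroVert x0)) φ) :
    ∑ z, (φ (zeroVert x1)).1.2 z = 0 := by
  have hrow : ∀ u : Vert m, (φ u).1.1 = u.1.1 := fun u => Fin.ext (aut_vcol _ _ φ hφ u)
  let y : Fin m → Row m := fun x => (φ (zeroVert x)).1.2
  have hsymm : ∀ x x', y x x' = y x' x := by
    intro x x'
    by_cases hxx : x = x'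
    · subst hxx; rfl
    have h2 : (cfi m).graph.Adj (zeroVert x) (zeroVert x') := ⟨hxx, rfl⟩
    have h3 : (cfi m).graph.Adj (φ (zeroVert x)) (φ (zeroVert x')) := (hφ.1 _ _).2 h2
    have h4 := h3.2
    rw [hrow, hrow] at h4
    exact h4
  have hdiag : ∀ x, y x x = 0 := by
    intro x
    have h2 := (φ (zeroVert x)).2.1
    rw [hrow] at h2
    exact h2
  have hy : IsFlip y := ⟨hsymm, hdiag⟩
  have hh := handshake y hy
  have hsum : ∀ x : Fin m, x ≠ x1 → ∑ z, y x z = 0 := by
    intro x hx
    by_cases hx0 : x = x0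
    · subst hx0
      have h2 : φ (zeroVert x) = zeroVert x := aut_fix _ _ φ hφ
      show ∑ z, (φ (zeroVert x)).1.2 z = 0
      rw [h2]
      show ∑ z, (0 : Row m) z = 0
      simp
    · have h2 := (φ (zeroVert x)).2.2
      rw [hrow] at h2
      refine h2 (fun h => hx0 (Fin.ext (h.trans h0.symm))) (fun h => hx (Fin.ext (h.trans h1.symm)))
  rw [Finset.sum_eq_single x1 (fun x _ hx => hsum x hx) (fun h => absurd (Finset.mem_univ _) h)]
    at hh
  exact hh

/-- The pairs in `h` are compatible with one flip `y` which fixes the row of the point `0` and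
whose rows are even outside `0`, `1` and one further point `d` not met by `h`. -/
def Good {m : ℕ} (h : Finset (Vert m × Vert m)) : Prop :=
  ∃ (y : Fin m → Row m) (d : Fin m), IsFlip y ∧ d.val ≠ 0 ∧ d.val ≠ 1 ∧
    (∀ x : Fin m, x.val = 0 → y x = 0) ∧
    (∀ x : Fin m, x.val ≠ 0 → x.val ≠ 1 → x ≠ d → ∑ z, y x z = 0) ∧
    ∀ p ∈ h, p.1.1.1 ≠ d ∧ p.2.1.1 = p.1.1.1 ∧ p.2.1.2 = p.1.1.2 + y p.1.1.1

theorem Good.mono {m : ℕ} {h h' : Finset (Vert m × Vert m)} (hg : Good h) (hs : h' ⊆ h) :
    Good h' := by
  obtain ⟨y, d, h1, h2, h3, h4, h5, h6⟩ := hg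
  exact ⟨y, d, h1, h2, h3, h4, h5, fun p hp => h6 p (hs hp)⟩

theorem Good.extend {m k : ℕ} (hm : k + 4 ≤ m) {h : Finset (Vert m × Vert m)} (hg : Good h)
    (hk : h.card ≤ k) : ∃ β : Vert m ≃ Vert m, ∀ u, Good (insert (u, β u) h) := by
  classical
  obtain ⟨y, d, hy, hd0, hd1, hy0, hys, hh⟩ := hg
  let bad : Finset (Fin m) :=
    insert ⟨0, by omega⟩ (insert ⟨1, by omega⟩ (insert d (h.image fun p => p.1.1.1)))
  have hbad : bad.card < Fintype.card (Fin m) := by
    have h1 : (h.image fun p => p.1.1.1).card ≤ k := Finset.card_image_le.trans hk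
    have h2 := Finset.card_insert_le d (h.image fun p => p.1.1.1)
    have h3 := Finset.card_insert_le (⟨1, by omega⟩ : Fin m)
      (insert d (h.image fun p => p.1.1.1))
    have h4 := Finset.card_insert_le (⟨0, by omega⟩ : Fin m)
      (insert ⟨1, by omega⟩ (insert d (h.image fun p => p.1.1.1)))
    rw [Fintype.card_fin]
    show (insert _ (insert _ (insert d (h.image fun p => p.1.1.1)))).card < m
    omega
  obtain ⟨d', hd'⟩ : ∃ d' : Fin m, d' ∉ bad := by
    by_contra hcon
    push Not at hcon
    have : bad = Finset.univ := Finset.eq_univ_iff_forall.2 hcon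
    rw [this, Finset.card_univ] at hbad
    exact lt_irrefl _ hbad
  simp only [bad, Finset.mem_insert, not_or, Finset.mem_image, not_exists, not_and] at hd'
  obtain ⟨e0, e1, e2, e3⟩ := hd'
  have hd'0 : d'.val ≠ 0 := fun h => e0 (Fin.ext h)
  have hd'1 : d'.val ≠ 1 := fun h => e1 (Fin.ext h)
  set ε : ZMod 2 := ∑ z, y d z with hε
  let y' : Fin m → Row m := fun x z => y x z + ε * edge d d' x z
  have hef := edge_flip (m := m) (Ne.symm e2)
  have hy' : IsFlip y' := by
    refine ⟨fun x x' => ?_, fun x => ?_⟩
    · show y x x' + ε * edge d d' x x' = y x' x + ε * edge d d' x' x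
      rw [hy.symm x x', hef.symm x x']
    · show y x x + ε * edge d d' x x = 0
      rw [hy.diag, hef.diag, mul_zero, add_zero]
  have hsum' : ∀ x, ∑ z, y' x z =
      (∑ z, y x z) + ε * ((if x = d then 1 else 0) + if x = d' then 1 else 0) := by
    intro x
    show ∑ z, (y x z + ε * edge d d' x z) = _
    rw [Finset.sum_add_distrib, ← Finset.mul_sum, edge_sum]
  have hsd : ∑ z, y' d z = 0 := by
    rw [hsum', if_pos rfl, if_neg (Ne.symm e2), add_zero, mul_one, ← hε]
    exact add_self _
  have hrow : ∀ x, x ≠ d → x ≠ d' → y' x = y x := by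
    intro x h1 h2
    funext z
    show y x z + ε * edge d d' x z = y x z
    rw [edge_row h1 h2]
    simp
  let Y : Fin m → Row m := fun x => if x = d then y' d else y x
  have hYd : Y d = y' d := if_pos rfl
  have hYn : ∀ x, x ≠ d → Y x = y x := fun x hx => if_neg hx
  have hYdiag : ∀ x, Y x x = 0 := by
    intro x
    by_cases hx : x = d
    · subst hx
      rw [hYd]
      exact hy'.diag _
    · rw [hYn x hx]
      exact hy.diag _
  have hYs : ∀ x : Fin m, x.val ≠ 0 → x.val ≠ 1 → ∑ z, Y x z = 0 := by
    intro x h0 h1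
    by_cases hx : x = d
    · subst hx
      rw [hYd]
      exact hsd
    · rw [hYn x hx]
      exact hys x h0 h1 hx
  refine ⟨shift Y hYdiag hYs, fun u => ?_⟩
  by_cases hu : u.1.1 = d
  · refine ⟨y', d', hy', hd'0, hd'1, ?_, ?_, ?_⟩
    · intro x hx
      rw [hrow x (fun h => hd0 (by rw [← h]; exact hx)) (fun h => hd'0 (by rw [← h]; exact hx))]
      exact hy0 x hx
    · intro x h0 h1 hx
      by_cases hxd : x = d
      · subst hxd
        exact hsd
      · rw [hrow x hxd hx]
        exact hys x h0 h1 hxd
    · intro p hp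
      rw [Finset.mem_insert] at hp
      rcases hp with rfl | hp
      · refine ⟨?_, rfl, ?_⟩
        · show u.1.1 ≠ d'
          rw [hu]
          exact Ne.symm e2
        · show u.1.2 + Y u.1.1 = u.1.2 + y' u.1.1
          rw [hu, hYd]
      · obtain ⟨h1, h2, h3⟩ := hh p hp
        have h4 : p.1.1.1 ≠ d' := fun h => e3 p hp h
        refine ⟨h4, h2, ?_⟩
        rw [h3, hrow _ h1 h4]
  · refine ⟨y, d, hy, hd0, hd1, hy0, hys, ?_⟩
    intro p hp
    rw [Finset.mem_insert] at hp
    rcases hp with rfl | hp
    · refine ⟨hu, rfl, ?_⟩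
      show u.1.2 + Y u.1.1 = u.1.2 + y u.1.1
      rw [hYn _ hu]
    · exact hh p hp

open Classical in
theorem wl_good {m k : ℕ} (hm : k + 4 ≤ m) (t : ℕ) : ∀ S S' : Fin k → Vert m,
    Good (Finset.univ.image fun i => (S i, S' i)) →
    wl (stab (cfi m) (zeroVert ⟨0, by omega⟩)) k t S =
      wl (stab (cfi m) (zeroVert ⟨0, by omega⟩)) k t S' := by
  induction t with
  | zero =>
    rintro S S' ⟨y, d, hy, hd0, hd1, hy0, hys, hh⟩
    have hS : ∀ i, (S i).1.1 ≠ d ∧ (S' i).1.1 = (S i).1.1 ∧
        (S' i).1.2 = (S i).1.2 + y (S i).1.1 := by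
      intro i
      exact hh (S i, S' i) (Finset.mem_image_of_mem _ (Finset.mem_univ i))
    show isoType _ k S = isoType _ k S'
    unfold isoType
    refine Prod.ext ?_ (Prod.ext ?_ ?_)
    · funext i j
      apply propext
      obtain ⟨-, a1, a2⟩ := hS i
      obtain ⟨-, b1, b2⟩ := hS j
      constructor
      · intro h
        apply Subtype.ext
        refine Prod.ext ?_ ?_
        · rw [a1, b1, h]
        · rw [a2, b2, h]
      · intro h
        have h1 : (S i).1.1 = (S j).1.1 := by rw [← a1, ← b1, h]
        apply Subtype.ext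
        refine Prod.ext h1 ?_
        have h2 : (S i).1.2 + y (S i).1.1 = (S j).1.2 + y (S j).1.1 := by rw [← a2, ← b2, h]
        rw [h1] at h2
        exact add_right_cancel h2
    · funext i j
      obtain ⟨-, a1, a2⟩ := hS i
      obtain ⟨-, b1, b2⟩ := hS j
      have h1 : (cfi m).graph.Adj (S' i) (S' j) ↔ (cfi m).graph.Adj (S i) (S j) :=
        adj_iff y hy a1 a2 b1 b2
      change (if (cfi m).graph.Adj (S i) (S j) then some 0 else none) =
        (if (cfi m).graph.Adj (S' i) (S' j) then some 0 else none)
      by_cases h : (cfi m).graph.Adj (S i) (S j)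
      · rw [if_pos h, if_pos (h1.2 h)]
      · rw [if_neg h, if_neg (fun h' => h (h1.1 h'))]
    · funext i
      change (stab (cfi m) (zeroVert ⟨0, by omega⟩)).vcol (S i) =
        (stab (cfi m) (zeroVert ⟨0, by omega⟩)).vcol (S' i)
      obtain ⟨-, a1, a2⟩ := hS i
      by_cases h0 : (S i).1.1.val = 0
      · have h1 : S' i = S i := by
          apply Subtype.ext
          refine Prod.ext a1 ?_
          rw [a2, hy0 _ h0, add_zero]
        rw [h1]
      · have h1 : S i ≠ zeroVert ⟨0, by omega⟩ := by
          intro h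
          exact h0 (by rw [h]; rfl)
        have h2 : S' i ≠ zeroVert ⟨0, by omega⟩ := by
          intro h
          rw [← a1] at h0
          exact h0 (by rw [h]; rfl)
        rw [stab_vcol_ne _ _ _ h1, stab_vcol_ne _ _ _ h2]
        show (S i).1.1.val = (S' i).1.1.val
        rw [a1]
  | succ t ih =>
    intro S S' hg
    show (_, _) = (_, _)
    refine Prod.ext (ih S S' hg) ?_
    have hcard : (Finset.univ.image fun i : Fin k => (S i, S' i)).card ≤ k := by
      refine Finset.card_image_le.trans ?_
      simp
    obtain ⟨β, hβ⟩ := hg.extend hm hcard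
    refine map_univ_eq β _ _ fun x => ?_
    funext i
    refine ih _ _ ((hβ x).mono ?_)
    intro p hp
    obtain ⟨j, -, rfl⟩ := Finset.mem_image.1 hp
    by_cases hj : j = i
    · subst hj
      simp
    · rw [Function.update_of_ne hj, Function.update_of_ne hj]
      exact Finset.mem_insert_of_mem (Finset.mem_image_of_mem _ (Finset.mem_univ j))

theorem down_good {m k : ℕ} {C : Type} (hm : k + 4 ≤ m) : ∀ (n : ℕ)
    (h : Finset (Vert m × Vert m)), h.card + n ≤ k → Good h →
    ∀ f f' : (Fin n → Vert m) → C,
    (∀ t t', Good (h ∪ Finset.univ.image fun i => (t i, t' i)) → f t = f' t') →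
    down n f = down n f' := by
  intro n
  induction n with
  | zero =>
    intro h _ hg f f' hf
    exact hf _ _ (hg.mono (by simp))
  | succ n ih =>
    intro h hc hg f f' hf
    obtain ⟨β, hβ⟩ := hg.extend hm (by omega)
    refine map_univ_eq β _ _ fun x => ?_
    refine ih (insert (x, β x) h) ?_ (hβ x) _ _ fun t t' ht => ?_
    · have := Finset.card_insert_le (x, β x) h
      omega
    · refine hf _ _ (ht.mono ?_)
      intro p hp
      rw [Finset.mem_union] at hp
      rcases hp with hp | hp
      · exact Finset.mem_union_left _ (Finset.mem_insert_of_mem hp)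
      · obtain ⟨j, -, rfl⟩ := Finset.mem_image.1 hp
        refine Fin.cases ?_ (fun j => ?_) j
        · exact Finset.mem_union_left _ (Finset.mem_insert_self _ _)
        · refine Finset.mem_union_right _ ?_
          exact Finset.mem_image_of_mem (fun i => (t i, t' i)) (Finset.mem_univ j)

/-- For every `k = n + 1 ≥ 1` there are a finite coloured graph `G` and a vertex `v` such that the
`k`-dimensional WL method refines `G` to its orbits but does not refine `G_v` to its orbits. -/
theorem result (n : ℕ) : ∃ (V : Type) (_ : Fintype V) (_ : DecidableEq V) (G : CGraph V) (v : V),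
    RefinesToOrbits n G ∧ ¬ RefinesToOrbits n (stab G v) := by
  classical
  let m : ℕ := n + 5
  have hm : n + 1 + 4 ≤ m := le_refl _
  let x0 : Fin m := ⟨0, by omega⟩
  let x1 : Fin m := ⟨1, by omega⟩
  let x2 : Fin m := ⟨2, by omega⟩
  have h12 : x1 ≠ x2 := fun h => by
    have := congrArg Fin.val h
    simp only [x1, x2] at this
    omega
  refine ⟨Vert m, inferInstance, inferInstance, cfi m, zeroVert x0, refines_cfi (by omega) n, ?_⟩
  intro hR
  have hef := edge_flip h12
  let u' : Vert m := ⟨(x1, edge x1 x2 x1), hef.diag x1, fun _ h => absurd rfl h⟩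
  have hcol : vertexColour (stab (cfi m) (zeroVert x0)) n (zeroVert x1) =
      vertexColour (stab (cfi m) (zeroVert x0)) n u' := by
    unfold vertexColour
    have hg : Good ({(zeroVert x1, u')} : Finset (Vert m × Vert m)) := by
      refine ⟨edge x1 x2, x2, hef, by simp [x2], by simp [x2], ?_, ?_, ?_⟩
      · intro x hx
        apply edge_row
        · intro h
          rw [h] at hx
          simp [x1] at hx
        · intro h
          rw [h] at hx
          simp [x2] at hx
      · intro x _ hx1 hx2
        rw [edge_row (fun h => hx1 (by rw [h])) hx2]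
        simp
      · intro p hp
        rw [Finset.mem_singleton] at hp
        subst hp
        refine ⟨h12, rfl, ?_⟩
        show edge x1 x2 x1 = (0 : Row m) + edge x1 x2 x1
        rw [zero_add]
    refine down_good hm n {(zeroVert x1, u')} (by simp; omega) hg _ _ fun t t' ht => ?_
    refine wl_good hm _ _ _ (ht.mono ?_)
    intro p hp
    obtain ⟨j, -, rfl⟩ := Finset.mem_image.1 hp
    refine Fin.cases ?_ (fun j => ?_) j
    · exact Finset.mem_union_left _ (Finset.mem_singleton_self _)
    · refine Finset.mem_union_right _ ?_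
      exact Finset.mem_image_of_mem (fun i => (t i, t' i)) (Finset.mem_univ j)
  obtain ⟨φ, hφ, hφu⟩ := (hR _ _).1 hcol
  have hp := parity x0 x1 rfl rfl φ hφ
  rw [hφu] at hp
  have h2 : ∑ z, edge x1 x2 x1 z = 1 := by
    rw [edge_sum, if_pos rfl, if_neg h12, add_zero]
  have h3 : (1 : ZMod 2) = 0 := h2.symm.trans hp
  exact absurd h3 (by decide)

end Pool.Agent.Results.MP_493565_co.StabiliserFails
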